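import Pool.Agent.LPK.Stmts

/-!
# Squad LPK, row CBN: the class block is nonnegative
-/

set_option autoImplicit false

noncomputable section

namespace Pool.Agent.LPK.H54

open Pool.Agent.LPK
open scoped RealInnerProductSpace

/-- the class modulo 2 -/
def cl {n : ℕ} (a : Fin n → ℤ) : Fin n → ZMod 2 := fun i => (a i : ZMod 2)

/-- the part of a class -/
def Fc {n : ℕ} (f : (Fin n → ℤ) → ℝ) (c : Fin n → ZMod 2) (a : Fin n → ℤ) : ℝ :=
  if cl a = c then f a else 0

theorem evn_iff {n : ℕ} (a : Fin n → ℤ) : Evn a ↔ cl a = 0 := by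
  unfold Evn cl
  rw [funext_iff]
  refine forall_congr' fun i => ?_
  exact ((ZMod.intCast_zmod_eq_zero_iff_dvd (a i) 2)).symm

theorem cg_iff {n : ℕ} (a c : Fin n → ℤ) : Cg a c ↔ cl a = cl c := by
  unfold Cg cl
  rw [funext_iff]
  refine forall_congr' fun i => ?_
  rw [← sub_eq_zero, ← Int.cast_sub]
  exact (ZMod.intCast_zmod_eq_zero_iff_dvd (a i - c i) 2).symm

theorem sg_eq {n : ℕ} (a c : Fin n → ℤ) :
    sg a c = if ∑ i, cl a i * cl c i = 0 then 1 else -1 := by
  unfold sg cl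
  have e : ∑ i, ((a i : ℤ) : ZMod 2) * ((c i : ℤ) : ZMod 2) = ((∑ i, a i * c i : ℤ) : ZMod 2) := by
    push_cast
    rfl
  have e2 := ZMod.intCast_zmod_eq_zero_iff_dvd (∑ i, a i * c i) 2
  rw [e]
  by_cases h : ((2 : ℕ) : ℤ) ∣ ∑ i, a i * c i
  · rw [if_pos (e2.2 h)]
    have h2 : Even (∑ i, a i * c i).natAbs := by
      rw [Int.natAbs_even]
      exact even_iff_two_dvd.2 (by exact_mod_cast h)
    exact h2.neg_one_pow
  · rw [if_neg (fun h5 => h (e2.1 h5))]
    have h2 : Odd (∑ i, a i * c i).natAbs := by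
      rw [← Nat.not_even_iff_odd, Int.natAbs_even]
      intro h3
      exact h (by exact_mod_cast even_iff_two_dvd.1 h3)
    exact h2.neg_one_pow

section

variable {n : ℕ}

theorem fc_sum (f : (Fin n → ℤ) → ℝ) (a : Fin n → ℤ) : ∑ c, Fc f c a = f a := by
  unfold Fc
  rw [Finset.sum_ite_eq]
  simp

theorem fc_summable {f : (Fin n → ℤ) → ℝ} (hf : Summable f) (c : Fin n → ZMod 2) :
    Summable (Fc f c) := by
  refine Summable.of_norm_bounded (g := fun a => ‖f a‖) hf.norm ?_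
  intro a
  unfold Fc
  split_ifs
  · exact le_rfl
  · simp

theorem tot {f : (Fin n → ℤ) → ℝ} (hf : Summable f) :
    ∑' a, f a = ∑ c, ∑' a, Fc f c a := by
  rw [← Summable.tsum_finsetSum (fun c _ => fc_summable hf c)]
  exact tsum_congr fun a => (fc_sum f a).symm

theorem zer (f : (Fin n → ℤ) → ℝ) :
    ∑' a, ind (Evn a) * f a = ∑' a, Fc f 0 a := by
  refine tsum_congr fun a => ?_
  unfold ind Fc
  by_cases h : Evn a
  · rw [if_pos h, if_pos ((evn_iff a).1 h), one_mul]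
  · rw [if_neg h, if_neg (fun h2 => h ((evn_iff a).2 h2)), zero_mul]

theorem prs {f : (Fin n → ℤ) → ℝ} (hf : Summable f) :
    ∑' a : Z2 n, ind (Cg a.1 a.2) * (f a.1 * f a.2) = ∑ c, (∑' a, Fc f c a) ^ 2 := by
  have h1 : ∀ c, (∑' a, Fc f c a) ^ 2 = ∑' a : Z2 n, Fc f c a.1 * Fc f c a.2 := by
    intro c
    rw [sq]
    exact tsum_mul_tsum_of_summable_norm (fc_summable hf c).norm (fc_summable hf c).norm
  have h2 : ∀ c, Summable (fun a : Z2 n => Fc f c a.1 * Fc f c a.2) := fun c =>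
    summable_mul_of_summable_norm (fc_summable hf c).norm (fc_summable hf c).norm
  rw [Finset.sum_congr rfl (fun c _ => h1 c), ← Summable.tsum_finsetSum (fun c _ => h2 c)]
  refine tsum_congr fun a => ?_
  have h3 : ∀ c, Fc f c a.1 * Fc f c a.2 =
      if cl a.1 = c then (if cl a.2 = c then f a.1 * f a.2 else 0) else 0 := by
    intro c
    unfold Fc
    split_ifs <;> simp
  rw [Finset.sum_congr rfl (fun c _ => h3 c), Finset.sum_ite_eq]
  unfold ind
  by_cases h : Cg a.1 a.2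
  · rw [if_pos h, if_pos (Finset.mem_univ _), if_pos ((cg_iff _ _).1 h).symm, one_mul]
  · rw [if_neg h, if_pos (Finset.mem_univ _), if_neg (fun h2 => h ((cg_iff _ _).2 h2.symm)),
      zero_mul]

theorem crs {f g : (Fin n → ℤ) → ℝ} (hf : Summable f) (hg : Summable g) :
    ∑' a : Z2 n, sg a.1 a.2 * (f a.1 * g a.2) =
      ∑ c : Fin n → ZMod 2, ∑ d : Fin n → ZMod 2, (if ∑ i, c i * d i = 0 then (1 : ℝ) else -1) *
        ((∑' a, Fc f c a) * (∑' a, Fc g d a)) := by
  have h1 : ∀ c d : Fin n → ZMod 2, (if ∑ i, c i * d i = 0 then (1 : ℝ) else -1) *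
        ((∑' a, Fc f c a) * (∑' a, Fc g d a)) = ∑' a : Z2 n,
        (if ∑ i, c i * d i = 0 then (1 : ℝ) else -1) * (Fc f c a.1 * Fc g d a.2) := by
    intro c d
    rw [tsum_mul_left, tsum_mul_tsum_of_summable_norm (fc_summable hf c).norm
      (fc_summable hg d).norm]
  have h2 : ∀ c d : Fin n → ZMod 2, Summable (fun a : Z2 n =>
      (if ∑ i, c i * d i = 0 then (1 : ℝ) else -1) * (Fc f c a.1 * Fc g d a.2)) := fun c d =>
    (summable_mul_of_summable_norm (fc_summable hf c).norm (fc_summable hg d).norm).mul_left _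
  have h3 : ∀ c : Fin n → ZMod 2, ∑ d : Fin n → ZMod 2,
      (if ∑ i, c i * d i = 0 then (1 : ℝ) else -1) * ((∑' a, Fc f c a) * (∑' a, Fc g d a)) =
      ∑' a : Z2 n, ∑ d : Fin n → ZMod 2,
        (if ∑ i, c i * d i = 0 then (1 : ℝ) else -1) * (Fc f c a.1 * Fc g d a.2) := by
    intro c
    rw [Summable.tsum_finsetSum (fun d _ => h2 c d)]
    exact Finset.sum_congr rfl fun d _ => h1 c d
  rw [Finset.sum_congr rfl (fun c _ => h3 c), ← Summable.tsum_finsetSum
    (fun c _ => summable_sum fun d _ => h2 c d)]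
  refine tsum_congr fun a => ?_
  have h4 : ∀ c : Fin n → ZMod 2, ∑ d : Fin n → ZMod 2,
      (if ∑ i, c i * d i = 0 then (1 : ℝ) else -1) * (Fc f c a.1 * Fc g d a.2) =
      if cl a.1 = c then (if ∑ i, cl a.1 i * cl a.2 i = 0 then (1 : ℝ) else -1) *
        (f a.1 * g a.2) else 0 := by
    intro c
    have h5 : ∀ d : Fin n → ZMod 2,
        (if ∑ i, c i * d i = 0 then (1 : ℝ) else -1) * (Fc f c a.1 * Fc g d a.2) =
        if cl a.2 = d then (if ∑ i, c i * cl a.2 i = 0 then (1 : ℝ) else -1) *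
          (Fc f c a.1 * g a.2) else 0 := by
      intro d
      by_cases h : cl a.2 = d
      · subst h
        rw [if_pos rfl]
        unfold Fc
        rw [if_pos (rfl : cl a.2 = cl a.2)]
      · rw [if_neg h]
        unfold Fc
        rw [if_neg h, mul_zero, mul_zero]
    rw [Finset.sum_congr rfl (fun d _ => h5 d), Finset.sum_ite_eq, if_pos (Finset.mem_univ _)]
    by_cases h : cl a.1 = c
    · subst h
      rw [if_pos rfl]
      unfold Fc
      rw [if_pos (rfl : cl a.1 = cl a.1)]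
    · rw [if_neg h]
      unfold Fc
      rw [if_neg h, zero_mul, mul_zero]
  rw [Finset.sum_congr rfl (fun c _ => h4 c), Finset.sum_ite_eq, if_pos (Finset.mem_univ _),
    ← sg_eq]

end

/-- **CBN** -/
theorem cbn (h0 : DuaStmt) (h1 : SumStmt) (h2 : HadStmt) : CbnStmt := by
  intro n hn κ b b' hd α β s t
  have hd' : Du κ⁻¹ b' b := (h0 n κ b b' hd).1
  obtain ⟨-, -, hs, -⟩ := h1 n κ κ b b b' b' hd hd
  obtain ⟨-, -, ht, -⟩ := h1 n κ⁻¹ κ⁻¹ b' b' b b hd' hd'
  have hdual := ht t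
  have hfs := hs s
  have h3 := h2 n hn α β (fun c => ∑' a, Fc (fun a => W1 s (pt b a)) c a)
    (fun c => ∑' a, Fc (fun a => W1 t (pt b' a)) c a)
    (fun c d => if ∑ i, c i * d i = 0 then 1 else -1) (fun _ _ => rfl)
  unfold CB
  rw [zer (fun a => W1 s (pt b a)), zer (fun a => W1 t (pt b' a)), tot hfs, tot hdual, prs hfs,
    prs hdual, crs hfs hdual]
  exact h3

end Pool.Agent.LPK.H54
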